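import Pool.Agent.W5h45.WM7

/-!
# The weak maximizing property for pairs of `L_p` spaces

For all `1 < p ≤ 2 ≤ q < ∞` with `(p, q) ≠ (2, 2)` and both scalar fields, the pair
`(L_p[0,1], L_q[0,1])` does not have the weak maximizing property.

Idea.  Let `g n` be independent standard Gaussians on `[0,1]`, let `r > 2`, let `B` be the `L_r`
norm of a standard Gaussian (so `B > 1`) and let `K` be the norm of the operator
`(a, z) ↦ a B + Σ z_n g_n` from `l_2` to `L_r`.  Then `K > B`, and by rotation invariance `K` is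
attained at vectors `(a, σ e_k)` with fixed `a ≠ 0`.  Composing with a diagonal contraction with
weights `1` in the zeroth coordinate and `λ_k < 1`, `λ_k → 1` in the others, the norm `K` is no
longer attained, but the vectors `(a, σ e_k)` still form a maximizing sequence, which is not weakly
null.  For `q > 2` this operator (with `r = q`) is composed with a Gaussian quotient map
`L_p → l_2`; for `q = 2`, `p < 2` one takes the transpose of it (with `r` the conjugate exponent of
`p`) followed by an isometric embedding into `L_2`.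
-/

open Filter Topology MeasureTheory
open scoped ENNReal

namespace Pool.Agent.Results.MP_30e1ee_an.FailsWMP

/-- The weak maximizing property of the pair `(E, F)`: every bounded operator `T : E → F` having a
maximizing sequence (unit vectors `x n` with `‖T (x n)‖ → ‖T‖`) that does not converge weakly to
`0` attains its norm. -/
def WMP (𝕜 E F : Type*) [RCLike 𝕜] [NormedAddCommGroup E] [NormedSpace 𝕜 E]
    [NormedAddCommGroup F] [NormedSpace 𝕜 F] : Prop :=
  ∀ T : E →L[𝕜] F,
    (∃ x : ℕ → E, (∀ n, ‖x n‖ = 1) ∧ Tendsto (fun n => ‖T (x n)‖) atTop (𝓝 ‖T‖) ∧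
      ¬ ∀ φ : E →L[𝕜] 𝕜, Tendsto (fun n => φ (x n)) atTop (𝓝 0)) →
    ∃ x₀ : E, ‖x₀‖ = 1 ∧ ‖T x₀‖ = ‖T‖

/-- `L_r[0,1]` with scalars `𝕜` and Lebesgue measure. -/
noncomputable abbrev X (𝕜 : Type*) [RCLike 𝕜] (r : ℝ≥0∞) := Lp 𝕜 r (volume : Measure unitInterval)

theorem result (𝕜 : Type*) [RCLike 𝕜] (p q : ℝ≥0∞) [Fact (1 ≤ p)] [Fact (1 ≤ q)]
    (hp1 : 1 < p) (hp2 : p ≤ 2) (hq2 : 2 ≤ q) (hq : q < ∞) (hne : (p, q) ≠ (2, 2)) :
    ¬ WMP 𝕜 (X 𝕜 p) (X 𝕜 q) :=
  Pool.Agent.W5h45.WM.not_wmp 𝕜 p q hp1 hp2 hq2 hq.ne (by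
    rintro ⟨rfl, rfl⟩
    exact hne rfl)

end Pool.Agent.Results.MP_30e1ee_an.FailsWMP
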